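import Pool.Agent.helper66.PN.Quart

set_option autoImplicit false

namespace Pool.Agent.Results.MP_3aa220_nt.QuarticField

/-- If some polynomial of degree `m ≥ 2` with at most three nonzero coefficients is irreducible
over the field with four elements, then some pentanomial of degree `2 m` is irreducible over the
field with two elements. -/
theorem result (K : Type) [Field K] (hK : Nat.card K = 4) (m : ℕ) (hm : 2 ≤ m)
    (q : Polynomial K) (hq : Irreducible q) (hdeg : q.natDegree = m)
    (hcard : q.support.card ≤ 3) :
    ∃ p : Polynomial (ZMod 2), p.natDegree = 2 * m ∧ p.support.card = 5 ∧ Irreducible p :=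
  Pool.Agent.PN.quartic K hK m hm q hq hdeg hcard

end Pool.Agent.Results.MP_3aa220_nt.QuarticField
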