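import Pool.Agent.helper66.PN.Sixt

set_option autoImplicit false

namespace Pool.Agent.Results.MP_3aa220_nt.SixteenField

open Polynomial in
/-- Let `c` be a root of `y ^ 4 + y + 1` in the field with sixteen elements. If one of the
trinomials `X ^ m + c X ^ k + 1` and `X ^ m + X ^ k + c` is irreducible over that field, then
some pentanomial of degree `4 m` is irreducible over the field with two elements. -/
theorem result (K : Type) [Field K] (hK : Nat.card K = 16) (m k : ℕ) (hk : 0 < k) (hkm : k < m)
    (c : K) (hc : c ^ 4 + c + 1 = 0) (q : Polynomial K) (hq : Irreducible q)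
    (hform : q = X ^ m + C c * X ^ k + 1 ∨ q = X ^ m + X ^ k + C c) :
    ∃ p : Polynomial (ZMod 2), p.natDegree = 4 * m ∧ p.support.card = 5 ∧ Irreducible p :=
  Pool.Agent.PN.sixteen K hK m k hk hkm c hc q hq hform

end Pool.Agent.Results.MP_3aa220_nt.SixteenField
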