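import Pool.Agent.helper66.PN.Main

set_option autoImplicit false

namespace Pool.Agent.Results.MP_3aa220_nt.WeightFive

/-- If some polynomial of degree `n` with at most five nonzero coefficients is irreducible over
the field with two elements, then so is some pentanomial of degree `n`, except possibly when
`60` divides `n` and the given polynomial is a polynomial in `X ^ 15`. -/
theorem result (n : ℕ) (hn : 4 ≤ n) (q : Polynomial (ZMod 2)) (hq : Irreducible q)
    (hdeg : q.natDegree = n) (hcard : q.support.card ≤ 5)
    (h : ¬ 60 ∣ n ∨ ∀ g : Polynomial (ZMod 2), q ≠ Polynomial.expand (ZMod 2) 15 g) :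
    ∃ p : Polynomial (ZMod 2), p.natDegree = n ∧ p.support.card = 5 ∧ Irreducible p :=
  Pool.Agent.PN.weight_five n hn q hq hdeg hcard h

end Pool.Agent.Results.MP_3aa220_nt.WeightFive
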